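import Mathlib

/-!
# Three maps, pairwise Leonard pairs, which are not a Leonard triple

Over `ℚ` let `A = diag(0, 1, -1)`, `A* = [1, 0, 2; 0, -1, 2; 2, 2, 0]` and
`A^ε = [9, -4, -4; -4, 2, 0; -4, 0, 16]`.
-/

set_option autoImplicit false
set_option linter.unusedSimpArgs false
set_option linter.unreachableTactic false
set_option linter.unusedTactic false

namespace Pool.Agent.Results.MP_23ff89_al.PairwiseNotTriple

variable {K : Type*} [Field K] {V : Type*} [AddCommGroup V] [Module K V]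

/-- A square matrix is irreducible tridiagonal: the entries `(i, j)` with `|i - j| > 1` are zero,
and the entries `(i, j)` with `|i - j| = 1` are nonzero. -/
def IsIrredTridiagonal {n : ℕ} (M : Matrix (Fin n) (Fin n) K) : Prop :=
  ∀ i j : Fin n, (((i : ℕ) + 1 < j ∨ (j : ℕ) + 1 < i) → M i j = 0) ∧
    (((i : ℕ) + 1 = j ∨ (j : ℕ) + 1 = i) → M i j ≠ 0)

/-- `X, Y` is a Leonard pair on `V`. -/
def IsLeonardPair (X Y : Module.End K V) : Prop :=
  (∃ (n : ℕ) (b : Module.Basis (Fin n) K V), (LinearMap.toMatrix b b X).IsDiag ∧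
      IsIrredTridiagonal (LinearMap.toMatrix b b Y)) ∧
    ∃ (n : ℕ) (b : Module.Basis (Fin n) K V), (LinearMap.toMatrix b b Y).IsDiag ∧
      IsIrredTridiagonal (LinearMap.toMatrix b b X)

/-- There is a single basis of `V` in which the matrix of `X` is diagonal and the matrices of `Y`
and `Z` are irreducible tridiagonal. -/
def Diagonalizes (X Y Z : Module.End K V) : Prop :=
  ∃ (n : ℕ) (b : Module.Basis (Fin n) K V), (LinearMap.toMatrix b b X).IsDiag ∧
    IsIrredTridiagonal (LinearMap.toMatrix b b Y) ∧ IsIrredTridiagonal (LinearMap.toMatrix b b Z)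

/-- `X, Y, Z` is a Leonard triple on `V`. -/
def IsLeonardTriple (X Y Z : Module.End K V) : Prop :=
  Diagonalizes X Y Z ∧ Diagonalizes Y Z X ∧ Diagonalizes Z X Y

/-- The basis given by the columns of an invertible matrix. -/
lemma exists_basis {n : ℕ} (P Q : Matrix (Fin n) (Fin n) K) (h : Q * P = 1) :
    ∃ b : Module.Basis (Fin n) K (Fin n → K), ∀ M : Matrix (Fin n) (Fin n) K,
      LinearMap.toMatrix b b M.mulVecLin = Q * M * P := by
  have h' : P * Q = 1 := mul_eq_one_comm.1 h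
  let e : (Fin n → K) ≃ₗ[K] (Fin n → K) := Matrix.toLin'OfInv h h'
  refine ⟨(Pi.basisFun K (Fin n)).map e, fun M => ?_⟩
  ext i j
  rw [LinearMap.toMatrix_apply]
  have h1 : ((Pi.basisFun K (Fin n)).map e) j = P.mulVec (Pi.single j 1) := by
    rw [Module.Basis.map_apply, Pi.basisFun_apply, ← Matrix.toLin'_apply]
    rfl
  have h2 : ∀ v, ((Pi.basisFun K (Fin n)).map e).repr v i = (Q.mulVec v) i := by
    intro v
    rw [← Matrix.toLin'_apply]
    rfl
  rw [h1, h2, Matrix.mulVecLin_apply, Matrix.mulVec_mulVec, Matrix.mulVec_mulVec,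
    Matrix.mulVec_single_one, Matrix.mul_assoc]
  rfl

/-- `A = diag(0, 1, -1)` -/
def mX : Matrix (Fin 3) (Fin 3) ℚ := !![0, 0, 0; 0, 1, 0; 0, 0, -1]

/-- `A*` -/
def mY : Matrix (Fin 3) (Fin 3) ℚ := !![1, 0, 2; 0, -1, 2; 2, 2, 0]

/-- `A^ε` -/
def mZ : Matrix (Fin 3) (Fin 3) ℚ := !![9, -4, -4; -4, 2, 0; -4, 0, 16]

/-- A criterion for irreducible tridiagonal `3 × 3` matrices. -/
lemma irred_of_eq {M : Matrix (Fin 3) (Fin 3) ℚ} {a b c d e f g : ℚ}
    (h : M = !![a, b, 0; c, d, e; 0, f, g]) (hb : b ≠ 0) (hc : c ≠ 0) (he : e ≠ 0) (hf : f ≠ 0) :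
    IsIrredTridiagonal M := by
  subst h
  intro i j
  fin_cases i <;> fin_cases j <;> simp [hb, hc, he, hf]

/-- A criterion for diagonal `3 × 3` matrices. -/
lemma diag_of_eq {M : Matrix (Fin 3) (Fin 3) ℚ} {a b c : ℚ}
    (h : M = !![a, 0, 0; 0, b, 0; 0, 0, c]) : M.IsDiag := by
  subst h
  intro i j hij
  fin_cases i <;> fin_cases j <;> simp at hij ⊢

/-- One half of the definition of Leonard pairs, from a matrix. -/
lemma half {X Y P Q : Matrix (Fin 3) (Fin 3) ℚ} (h : Q * P = 1) {a b c : ℚ}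
    (hX : Q * X * P = !![a, 0, 0; 0, b, 0; 0, 0, c]) {a' b' c' d e f g : ℚ}
    (hY : Q * Y * P = !![a', b', 0; c', d, e; 0, f, g]) (hb : b' ≠ 0) (hc : c' ≠ 0) (he : e ≠ 0)
    (hf : f ≠ 0) :
    ∃ (n : ℕ) (b : Module.Basis (Fin n) ℚ (Fin 3 → ℚ)), (LinearMap.toMatrix b b X.mulVecLin).IsDiag ∧
      IsIrredTridiagonal (LinearMap.toMatrix b b Y.mulVecLin) := by
  obtain ⟨b, hb'⟩ := exists_basis P Q h
  refine ⟨3, b, ?_, ?_⟩
  · rw [hb']
    exact diag_of_eq hX
  · rw [hb']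
    exact irred_of_eq hY hb hc he hf

lemma pairXY : IsLeonardPair (mX.mulVecLin) (mY.mulVecLin) := by
  constructor
  · refine half (P := !![1, 0, 0; 0, 0, 1; 0, 1, 0]) (Q := !![1, 0, 0; 0, 0, 1; 0, 1, 0])
      (a := 0) (b := -1) (c := 1) (a' := 1) (b' := 2) (c' := 2) (d := 0) (e := 2)
      (f := 2) (g := -1) ?_ ?_ ?_ ?_ ?_ ?_ ?_ <;>
    first
      | (ext i j; fin_cases i <;> fin_cases j <;>
          simp [mX, mY, mZ, Matrix.mul_apply, Fin.sum_univ_three] <;> norm_num)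
      | norm_num
  · refine half (P := !![2, -1, 2; -2, -2, 1; -1, 2, 2]) (Q := !![2/9, -2/9, -1/9; -1/9, -2/9, 2/9; 2/9, 1/9, 2/9])
      (a := 0) (b := -3) (c := 3) (a' := 1/3) (b' := 2/3) (c' := 2/3) (d := 0) (e := -2/3)
      (f := -2/3) (g := -1/3) ?_ ?_ ?_ ?_ ?_ ?_ ?_ <;>
    first
      | (ext i j; fin_cases i <;> fin_cases j <;>
          simp [mX, mY, mZ, Matrix.mul_apply, Fin.sum_univ_three] <;> norm_num)
      | norm_num

lemma pairXZ : IsLeonardPair (mX.mulVecLin) (mZ.mulVecLin) := by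
  constructor
  · refine half (P := !![0, 1, 0; 1, 0, 0; 0, 0, 1]) (Q := !![0, 1, 0; 1, 0, 0; 0, 0, 1])
      (a := 1) (b := 0) (c := -1) (a' := 2) (b' := -4) (c' := -4) (d := 9) (e := -4)
      (f := -4) (g := 16) ?_ ?_ ?_ ?_ ?_ ?_ ?_ <;>
    first
      | (ext i j; fin_cases i <;> fin_cases j <;>
          simp [mX, mY, mZ, Matrix.mul_apply, Fin.sum_univ_three] <;> norm_num)
      | norm_num
  · refine half (P := !![4, -7, 4; 8, 4, -1; 1, -4, -8]) (Q := !![4/81, 8/81, 1/81; -7/81, 4/81, -4/81; 4/81, -1/81, -8/81])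
      (a := 0) (b := 9) (c := 18) (a' := 7/9) (b' := 4/9) (c' := 4/9) (d := 0) (e := -4/9)
      (f := -4/9) (g := -7/9) ?_ ?_ ?_ ?_ ?_ ?_ ?_ <;>
    first
      | (ext i j; fin_cases i <;> fin_cases j <;>
          simp [mX, mY, mZ, Matrix.mul_apply, Fin.sum_univ_three] <;> norm_num)
      | norm_num

lemma pairYZ : IsLeonardPair (mY.mulVecLin) (mZ.mulVecLin) := by
  constructor
  · refine half (P := !![2, -1, 2; -2, -2, 1; -1, 2, 2]) (Q := !![2/9, -2/9, -1/9; -1/9, -2/9, 2/9; 2/9, 1/9, 2/9])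
      (a := 0) (b := -3) (c := 3) (a' := 12) (b' := -6) (c' := -6) (d := 9) (e := 6)
      (f := 6) (g := 6) ?_ ?_ ?_ ?_ ?_ ?_ ?_ <;>
    first
      | (ext i j; fin_cases i <;> fin_cases j <;>
          simp [mX, mY, mZ, Matrix.mul_apply, Fin.sum_univ_three] <;> norm_num)
      | norm_num
  · refine half (P := !![4, 4, -7; -1, 8, 4; -8, 1, -4]) (Q := !![4/81, -1/81, -8/81; 4/81, 8/81, 1/81; -7/81, 4/81, -4/81])
      (a := 18) (b := 0) (c := 9) (a' := -1) (b' := -2) (c' := -2) (d := 0) (e := -2)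
      (f := -2) (g := 1) ?_ ?_ ?_ ?_ ?_ ?_ ?_ <;>
    first
      | (ext i j; fin_cases i <;> fin_cases j <;>
          simp [mX, mY, mZ, Matrix.mul_apply, Fin.sum_univ_three] <;> norm_num)
      | norm_num

lemma one_nonzero {a b c t : ℚ} (h0 : a * t = 0) (h1 : b * (1 - t) = 0) (h2 : c * (-1 - t) = 0)
    (h : ¬ (a = 0 ∧ b = 0 ∧ c = 0)) : (a ≠ 0 ∧ b = 0 ∧ c = 0) ∨ (a = 0 ∧ b ≠ 0 ∧ c = 0) ∨
      (a = 0 ∧ b = 0 ∧ c ≠ 0) := by
  rcases mul_eq_zero.1 h0 with h0 | h0 <;> rcases mul_eq_zero.1 h1 with h1 | h1 <;>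
    rcases mul_eq_zero.1 h2 with h2 | h2
  · exact absurd ⟨h0, h1, h2⟩ h
  · exact Or.inr (Or.inr ⟨h0, h1, fun h3 => h ⟨h0, h1, h3⟩⟩)
  · exact Or.inr (Or.inl ⟨h0, fun h3 => h ⟨h0, h3, h2⟩, h2⟩)
  · linarith
  · exact Or.inl ⟨fun h3 => h ⟨h3, h1, h2⟩, h1, h2⟩
  · linarith
  · linarith
  · linarith

/-- No single basis diagonalises `A` and makes both `A*` and `A^ε` irreducible tridiagonal. -/
lemma not_diagonalizes : ¬ Diagonalizes (mX.mulVecLin) (mY.mulVecLin) (mZ.mulVecLin) := by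
  rintro ⟨n, b, hX, hY, hZ⟩
  have hn : n = 3 := by
    have := Module.finrank_eq_card_basis b
    simpa using this.symm
  subst hn
  set φ := b.coord 0 with hφ
  set ξ := LinearMap.toMatrix b b mX.mulVecLin 0 0 with hξ
  set ξ' := LinearMap.toMatrix b b mX.mulVecLin 2 2 with hξ'
  have hφX : ∀ v, φ (mX.mulVec v) = ξ * φ v := by
    intro v
    have h1 := congrFun (LinearMap.toMatrix_mulVec_repr b b mX.mulVecLin v) 0
    rw [Matrix.mulVec, dotProduct, Fin.sum_univ_three, hX (show (0 : Fin 3) ≠ 1 by decide),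
      hX (show (0 : Fin 3) ≠ 2 by decide), zero_mul, zero_mul, add_zero, add_zero] at h1
    exact h1.symm
  have hbX : mX.mulVec (b 2) = ξ' • b 2 := by
    have h1 := b.sum_repr (mX.mulVecLin (b 2))
    rw [Fin.sum_univ_three] at h1
    have e0 : b.repr (mX.mulVecLin (b 2)) 0 = 0 := by
      rw [← LinearMap.toMatrix_apply]
      exact hX (show (0 : Fin 3) ≠ 2 by decide)
    have e1 : b.repr (mX.mulVecLin (b 2)) 1 = 0 := by
      rw [← LinearMap.toMatrix_apply]
      exact hX (show (1 : Fin 3) ≠ 2 by decide)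
    have e2 : b.repr (mX.mulVecLin (b 2)) 2 = ξ' := by
      rw [← LinearMap.toMatrix_apply]
    rw [e0, e1, e2, zero_smul, zero_smul, zero_add, zero_add] at h1
    exact h1.symm
  have hφY : φ (mY.mulVec (b 2)) = 0 := by
    have h1 := (hY 0 2).1 (Or.inl (by decide))
    rwa [LinearMap.toMatrix_apply] at h1
  have hφZ : φ (mZ.mulVec (b 2)) = 0 := by
    have h1 := (hZ 0 2).1 (Or.inl (by decide))
    rwa [LinearMap.toMatrix_apply] at h1
  have hφb : φ (b 2) = 0 := by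
    rw [hφ, Module.Basis.coord_apply, Module.Basis.repr_self, Finsupp.single_apply,
      if_neg (by decide)]
  have hφ0 : φ (b 0) = 1 := by
    rw [hφ, Module.Basis.coord_apply, Module.Basis.repr_self, Finsupp.single_apply, if_pos rfl]
  -- coordinates
  set c : Fin 3 → ℚ := fun k => φ (Pi.single k 1) with hc
  have hexp : ∀ v : Fin 3 → ℚ, φ v = v 0 * c 0 + v 1 * c 1 + v 2 * c 2 := by
    intro v
    have h1 : v = v 0 • Pi.single 0 1 + v 1 • Pi.single 1 1 + v 2 • Pi.single 2 1 := by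
      ext k
      fin_cases k <;> simp
    conv_lhs => rw [h1]
    rw [map_add, map_add, map_smul, map_smul, map_smul]
    rfl
  set d := b 2 with hd
  have hc0 := hφX (Pi.single 0 1)
  have hc1 := hφX (Pi.single 1 1)
  have hc2 := hφX (Pi.single 2 1)
  have hd0 := congrFun hbX 0
  have hd1 := congrFun hbX 1
  have hd2 := congrFun hbX 2
  rw [hexp] at hφY hφZ hφb
  rw [hexp, hexp (Pi.single _ _)] at hc0 hc1 hc2
  simp [mX, mY, mZ, Matrix.mulVec, dotProduct, Fin.sum_univ_three] at hφY hφZ hφb hc0 hc1 hc2 hd0 hd1 hd2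
  have hcne : ¬ (c 0 = 0 ∧ c 1 = 0 ∧ c 2 = 0) := by
    rintro ⟨h0, h1, h2⟩
    rw [hexp, h0, h1, h2] at hφ0
    simp at hφ0
  have hdne : ¬ (d 0 = 0 ∧ d 1 = 0 ∧ d 2 = 0) := by
    rintro ⟨h0, h1, h2⟩
    apply b.ne_zero 2
    rw [← hd]
    ext k
    fin_cases k
    exacts [h0, h1, h2]
  have hC := one_nonzero (a := c 0) (b := c 1) (c := c 2) (t := ξ)
    (by rcases hc0 with h | h <;> rw [h] <;> ring) (by linear_combination hc1)
    (by linear_combination hc2) hcne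
  have hD := one_nonzero (a := d 0) (b := d 1) (c := d 2) (t := ξ')
    (by rcases hd0 with h | h <;> rw [h] <;> ring) (by linear_combination hd1)
    (by linear_combination hd2) hdne
  rcases hC with ⟨a1, a2, a3⟩ | ⟨a1, a2, a3⟩ | ⟨a1, a2, a3⟩ <;>
    rcases hD with ⟨b1, b2, b3⟩ | ⟨b1, b2, b3⟩ | ⟨b1, b2, b3⟩
  · rw [a2, a3, b2, b3] at hφb
    exact mul_ne_zero b1 a1 (by linear_combination hφb)
  · rw [a2, a3, b1, b3] at hφZ
    exact mul_ne_zero b2 a1 (by linear_combination -hφZ / 4)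
  · rw [a2, a3, b1, b2] at hφY
    exact mul_ne_zero b3 a1 (by linear_combination hφY / 2)
  · rw [a1, a3, b2, b3] at hφZ
    exact mul_ne_zero b1 a2 (by linear_combination -hφZ / 4)
  · rw [a1, a3, b1, b3] at hφb
    exact mul_ne_zero b2 a2 (by linear_combination hφb)
  · rw [a1, a3, b1, b2] at hφY
    exact mul_ne_zero b3 a2 (by linear_combination hφY / 2)
  · rw [a1, a2, b2, b3] at hφY
    exact mul_ne_zero b1 a3 (by linear_combination hφY / 2)
  · rw [a1, a2, b1, b3] at hφY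
    exact mul_ne_zero b2 a3 (by linear_combination hφY / 2)
  · rw [a1, a2, b1, b2] at hφb
    exact mul_ne_zero b3 a3 (by linear_combination hφb)

/-- There are linear maps `A, A*, A^ε` on `ℚ³`, each two of which form a Leonard pair, such that no
single basis makes `A` diagonal and both `A*` and `A^ε` irreducible tridiagonal; in particular
`A, A*, A^ε` is not a Leonard triple. -/
theorem result : ∃ A As Aε : Module.End ℚ (Fin 3 → ℚ),
    IsLeonardPair A As ∧ IsLeonardPair A Aε ∧ IsLeonardPair As Aε ∧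
      ¬ Diagonalizes A As Aε ∧ ¬ IsLeonardTriple A As Aε :=
  ⟨mX.mulVecLin, mY.mulVecLin, mZ.mulVecLin, pairXY, pairXZ, pairYZ, not_diagonalizes,
    fun h => not_diagonalizes h.1⟩

end Pool.Agent.Results.MP_23ff89_al.PairwiseNotTriple
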